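import Mathlib

set_option autoImplicit false
open Filter Topology Set
open scoped ContDiff Matrix

namespace Pool.Agent.Results.MP_0eca13_an.UniqueMGHD

/-! ### The equation -/

/-- `∂_t f`; points of `ℝ^{1+1}` are pairs `(t, x)` -/
noncomputable def dt (f : ℝ × ℝ → ℝ) (p : ℝ × ℝ) : ℝ := fderiv ℝ f p (1, 0)

/-- `∂_x f` -/
noncomputable def dx (f : ℝ × ℝ → ℝ) (p : ℝ × ℝ) : ℝ := fderiv ℝ f p (0, 1)

/-- `Ψ = ∂_t Φ - 2 ∂_x Φ` -/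
noncomputable def Psi (Φ : ℝ × ℝ → ℝ) (p : ℝ × ℝ) : ℝ := dt Φ p - 2 * dx Φ p

/-- the inverse acoustical metric -/
noncomputable def gInv (ψ : ℝ) : Matrix (Fin 2) (Fin 2) ℝ := !![-1, -ψ / 2; -ψ / 2, 2 * (2 + ψ)]

/-- the acoustical metric applied to a vector `v = (v^t, v^x)` twice: `g(v, v)` -/
noncomputable def gNorm (ψ : ℝ) (v : ℝ × ℝ) : ℝ := ![v.1, v.2] ⬝ᵥ ((gInv ψ)⁻¹ *ᵥ ![v.1, v.2])

/-- An inextendible causal curve in `Ω` for the metric `g(Ψ)`: a `C¹` curve defined on a nonempty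
open interval `I`, with values in `Ω` and nonzero causal velocity, which has no limit in `Ω` at either
end of `I`. -/
structure IsInextendibleCausal (Ω : Set (ℝ × ℝ)) (Φ : ℝ × ℝ → ℝ) (I : Set ℝ) (γ : ℝ → ℝ × ℝ) :
    Prop where
  isOpen : IsOpen I
  ordConnected : I.OrdConnected
  nonempty : I.Nonempty
  mem : ∀ s ∈ I, γ s ∈ Ω
  smooth : ContDiffOn ℝ 1 γ I
  causal : ∀ s ∈ I, deriv γ s ≠ 0 ∧ gNorm (Psi Φ (γ s)) (deriv γ s) ≤ 0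
  no_future_end : ¬ ∃ q ∈ Ω, Tendsto (fun s : I => γ s) atTop (𝓝 q)
  no_past_end : ¬ ∃ q ∈ Ω, Tendsto (fun s : I => γ s) atBot (𝓝 q)

/-- A globally hyperbolic development of the data `(φ₀, φ₁)`. -/
structure IsGHD (φ₀ φ₁ : ℝ → ℝ) (Ω : Set (ℝ × ℝ)) (Φ : ℝ × ℝ → ℝ) : Prop where
  isOpen : IsOpen Ω
  initial_mem : ∀ x : ℝ, ((0 : ℝ), x) ∈ Ω
  smooth : ContDiffOn ℝ ∞ Φ Ω
  equation : ∀ p ∈ Ω, -dt (dt Φ) p - Psi Φ p * dt (dx Φ) p +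
    2 * (2 + Psi Φ p) * dx (dx Φ) p = 0
  data₀ : ∀ x : ℝ, Φ (0, x) = φ₀ x
  data₁ : ∀ x : ℝ, dt Φ (0, x) = φ₁ x
  nondegenerate : ∀ p ∈ Ω, Psi Φ p ≠ -4
  cauchy : ∀ (I : Set ℝ) (γ : ℝ → ℝ × ℝ), IsInextendibleCausal Ω Φ I γ →
    ∃! s : ℝ, s ∈ I ∧ (γ s).1 = 0

/-- A maximal globally hyperbolic development: a GHD without proper extension to a GHD. -/
structure IsMGHD (φ₀ φ₁ : ℝ → ℝ) (Ω : Set (ℝ × ℝ)) (Φ : ℝ × ℝ → ℝ) : Prop where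
  isGHD : IsGHD φ₀ φ₁ Ω Φ
  maximal : ∀ Ω' Φ', IsGHD φ₀ φ₁ Ω' Φ' → Ω ⊆ Ω' → EqOn Φ' Φ Ω → Ω' = Ω

/-! ### The metric -/

lemma gNorm_eq {ψ : ℝ} (h : ψ ≠ -4) (v : ℝ × ℝ) :
    gNorm ψ v = 4 / (ψ + 4) ^ 2 * ((v.2 + 2 * v.1) * (v.2 - (2 + ψ) * v.1)) := by
  have h4 : ψ + 4 ≠ 0 := fun h0 => h (by linarith)
  have hdet : (gInv ψ).det = -(ψ + 4) ^ 2 / 4 := by
    simp [gInv, Matrix.det_fin_two]
    ring
  unfold gNorm
  rw [Matrix.inv_def, hdet]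
  simp only [Ring.inverse_eq_inv']
  simp [gInv, Matrix.adjugate_fin_two, dotProduct, Fin.sum_univ_two, Matrix.mulVec]
  field_simp
  ring

/-! ### Restricting curves to the connected component inside an open set -/

lemma component_facts {A : Set ℝ} (hA : IsOpen A) {s₀ : ℝ} (hs₀ : s₀ ∈ A) :
    IsOpen (connectedComponentIn A s₀) ∧ (connectedComponentIn A s₀).OrdConnected ∧
      s₀ ∈ connectedComponentIn A s₀ ∧ connectedComponentIn A s₀ ⊆ A :=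
  ⟨hA.connectedComponentIn, isPreconnected_connectedComponentIn.ordConnected,
    mem_connectedComponentIn hs₀, connectedComponentIn_subset A s₀⟩

lemma restrict_end_top {I : Set ℝ} (hI : IsOpen I) (hIc : I.OrdConnected) {γ : ℝ → ℝ × ℝ}
    (hγ : ContinuousOn γ I) {Ω : Set (ℝ × ℝ)} (hΩ : IsOpen Ω) {s₀ : ℝ} (hs₀ : s₀ ∈ I)
    (hγs₀ : γ s₀ ∈ Ω) {q : ℝ × ℝ} (hq : q ∈ Ω)
    (hlim : Tendsto (fun s : connectedComponentIn (I ∩ γ ⁻¹' Ω) s₀ => γ s) atTop (𝓝 q)) :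
    Tendsto (fun s : I => γ s) atTop (𝓝 q) := by
  set A : Set ℝ := I ∩ γ ⁻¹' Ω with hAdef
  have hA : IsOpen A := hγ.isOpen_inter_preimage hI hΩ
  have hs₀A : s₀ ∈ A := ⟨hs₀, hγs₀⟩
  set J : Set ℝ := connectedComponentIn A s₀ with hJ
  obtain ⟨hJo, hJc, hsJ, hJA⟩ := component_facts hA hs₀A
  have : Nonempty J := ⟨⟨s₀, hsJ⟩⟩
  have : Nonempty I := ⟨⟨s₀, hs₀⟩⟩
  by_cases hcof : ∀ s ∈ I, ∃ s' ∈ J, s ≤ s'
  · -- the component reaches the end of `I`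
    rw [tendsto_atTop'] at hlim ⊢
    intro V hV
    obtain ⟨a, ha⟩ := hlim V hV
    refine ⟨⟨max s₀ a, ?_⟩, fun b hb => ?_⟩
    · rcases max_choice s₀ (a : ℝ) with h | h <;> rw [h]
      · exact hs₀
      · exact (hJA a.2).1
    · have hb' : max s₀ (a : ℝ) ≤ b := hb
      obtain ⟨s', hs'J, hs'⟩ := hcof b b.2
      have hbJ : (b : ℝ) ∈ J := hJc.out hsJ hs'J ⟨(le_max_left _ _).trans hb', hs'⟩
      exact ha ⟨b, hbJ⟩ (show (a : ℝ) ≤ b from (le_max_right _ _).trans hb')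
  · exfalso
    push Not at hcof
    obtain ⟨b₀, hb₀I, hb₀⟩ := hcof
    have hbdd : BddAbove J := ⟨b₀, fun s hs => (hb₀ s hs).le⟩
    set b : ℝ := sSup J with hb
    have hsb : s₀ ≤ b := le_csSup hbdd hsJ
    have hbb : b ≤ b₀ := csSup_le ⟨s₀, hsJ⟩ fun s hs => (hb₀ s hs).le
    have hbI : b ∈ I := hIc.out hs₀ hb₀I ⟨hsb, hbb⟩
    have hbJ : b ∉ J := by
      intro hmem
      obtain ⟨ε, hε, hball⟩ := Metric.isOpen_iff.1 hJo b hmem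
      have : b + ε / 2 ∈ J := by
        refine hball ?_
        rw [Metric.mem_ball, Real.dist_eq, add_sub_cancel_left, abs_of_pos (by positivity)]
        linarith
      have := le_csSup hbdd this
      linarith
    have hIco : ∀ s, s₀ ≤ s → s < b → s ∈ J := by
      intro s h1 h2
      obtain ⟨s', hs'J, hs'⟩ := exists_lt_of_lt_csSup ⟨s₀, hsJ⟩ h2
      exact hJc.out hsJ hs'J ⟨h1, hs'.le⟩
    have hsb' : s₀ < b := lt_of_le_of_ne hsb fun h => hbJ (h ▸ hsJ)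
    -- the curve converges to `γ b`
    have hγb : Tendsto γ (𝓝[<] b) (𝓝 (γ b)) :=
      ((hγ b hbI).continuousAt (hI.mem_nhds hbI)).tendsto.mono_left nhdsWithin_le_nhds
    have hγq : Tendsto γ (𝓝[<] b) (𝓝 q) := by
      rw [tendsto_atTop'] at hlim
      intro V hV
      obtain ⟨a, ha⟩ := hlim V hV
      have hab : (a : ℝ) < b := lt_of_le_of_ne (le_csSup hbdd a.2) fun h => hbJ (h ▸ a.2)
      rw [mem_map]
      filter_upwards [Ioo_mem_nhdsLT (max_lt hab hsb')] with s hs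
      have hsJ' : s ∈ J := hIco s ((le_max_right _ _).trans hs.1.le) hs.2
      exact ha ⟨s, hsJ'⟩ (show (a : ℝ) ≤ s from (le_max_left (a : ℝ) s₀).trans hs.1.le)
    have hqb : γ b = q := tendsto_nhds_unique hγb hγq
    have hbA : b ∈ A := ⟨hbI, by show γ b ∈ Ω; rw [hqb]; exact hq⟩
    have hIcc : Icc s₀ b ⊆ A := by
      intro s hs
      rcases hs.2.lt_or_eq with h | h
      · exact hJA (hIco s hs.1 h)
      · rw [h]; exact hbA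
    exact hbJ (isPreconnected_Icc.subset_connectedComponentIn (left_mem_Icc.2 hsb) hIcc
      (right_mem_Icc.2 hsb))

lemma restrict_end_bot {I : Set ℝ} (hI : IsOpen I) (hIc : I.OrdConnected) {γ : ℝ → ℝ × ℝ}
    (hγ : ContinuousOn γ I) {Ω : Set (ℝ × ℝ)} (hΩ : IsOpen Ω) {s₀ : ℝ} (hs₀ : s₀ ∈ I)
    (hγs₀ : γ s₀ ∈ Ω) {q : ℝ × ℝ} (hq : q ∈ Ω)
    (hlim : Tendsto (fun s : connectedComponentIn (I ∩ γ ⁻¹' Ω) s₀ => γ s) atBot (𝓝 q)) :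
    Tendsto (fun s : I => γ s) atBot (𝓝 q) := by
  set A : Set ℝ := I ∩ γ ⁻¹' Ω with hAdef
  have hA : IsOpen A := hγ.isOpen_inter_preimage hI hΩ
  have hs₀A : s₀ ∈ A := ⟨hs₀, hγs₀⟩
  set J : Set ℝ := connectedComponentIn A s₀ with hJ
  obtain ⟨hJo, hJc, hsJ, hJA⟩ := component_facts hA hs₀A
  have : Nonempty J := ⟨⟨s₀, hsJ⟩⟩
  have : Nonempty I := ⟨⟨s₀, hs₀⟩⟩
  by_cases hcof : ∀ s ∈ I, ∃ s' ∈ J, s' ≤ s
  · rw [tendsto_atBot'] at hlim ⊢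
    intro V hV
    obtain ⟨a, ha⟩ := hlim V hV
    refine ⟨⟨min s₀ a, ?_⟩, fun b hb => ?_⟩
    · rcases min_choice s₀ (a : ℝ) with h | h <;> rw [h]
      · exact hs₀
      · exact (hJA a.2).1
    · have hb' : (b : ℝ) ≤ min s₀ (a : ℝ) := hb
      obtain ⟨s', hs'J, hs'⟩ := hcof b b.2
      have hbJ : (b : ℝ) ∈ J := hJc.out hs'J hsJ ⟨hs', hb'.trans (min_le_left _ _)⟩
      exact ha ⟨b, hbJ⟩ (show (b : ℝ) ≤ a from hb'.trans (min_le_right _ _))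
  · exfalso
    push Not at hcof
    obtain ⟨b₀, hb₀I, hb₀⟩ := hcof
    have hbdd : BddBelow J := ⟨b₀, fun s hs => (hb₀ s hs).le⟩
    set b : ℝ := sInf J with hb
    have hsb : b ≤ s₀ := csInf_le hbdd hsJ
    have hbb : b₀ ≤ b := le_csInf ⟨s₀, hsJ⟩ fun s hs => (hb₀ s hs).le
    have hbI : b ∈ I := hIc.out hb₀I hs₀ ⟨hbb, hsb⟩
    have hbJ : b ∉ J := by
      intro hmem
      obtain ⟨ε, hε, hball⟩ := Metric.isOpen_iff.1 hJo b hmem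
      have : b - ε / 2 ∈ J := by
        refine hball ?_
        rw [Metric.mem_ball, Real.dist_eq, sub_sub_cancel_left, abs_neg, abs_of_pos (by positivity)]
        linarith
      have := csInf_le hbdd this
      linarith
    have hIco : ∀ s, b < s → s ≤ s₀ → s ∈ J := by
      intro s h1 h2
      obtain ⟨s', hs'J, hs'⟩ := exists_lt_of_csInf_lt ⟨s₀, hsJ⟩ h1
      exact hJc.out hs'J hsJ ⟨hs'.le, h2⟩
    have hsb' : b < s₀ := lt_of_le_of_ne hsb fun h => hbJ (h ▸ hsJ)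
    have hγb : Tendsto γ (𝓝[>] b) (𝓝 (γ b)) :=
      ((hγ b hbI).continuousAt (hI.mem_nhds hbI)).tendsto.mono_left nhdsWithin_le_nhds
    have hγq : Tendsto γ (𝓝[>] b) (𝓝 q) := by
      rw [tendsto_atBot'] at hlim
      intro V hV
      obtain ⟨a, ha⟩ := hlim V hV
      have hab : b < (a : ℝ) := lt_of_le_of_ne (csInf_le hbdd a.2) fun h => hbJ (h ▸ a.2)
      rw [mem_map]
      filter_upwards [Ioo_mem_nhdsGT (lt_min hab hsb')] with s hs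
      have hsJ' : s ∈ J := hIco s hs.1 (hs.2.le.trans (min_le_right _ _))
      exact ha ⟨s, hsJ'⟩ (show (s : ℝ) ≤ a from hs.2.le.trans (min_le_left _ _))
    have hqb : γ b = q := tendsto_nhds_unique hγb hγq
    have hbA : b ∈ A := ⟨hbI, by show γ b ∈ Ω; rw [hqb]; exact hq⟩
    have hIcc : Icc b s₀ ⊆ A := by
      intro s hs
      rcases hs.1.lt_or_eq with h | h
      · exact hJA (hIco s h hs.2)
      · rw [← h]; exact hbA
    exact hbJ (isPreconnected_Icc.subset_connectedComponentIn (right_mem_Icc.2 hsb) hIcc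
      (left_mem_Icc.2 hsb))

/-! ### Null lines -/

/-- the line through `p` with slope `κ`, parametrised by `t` -/
noncomputable def line (p : ℝ × ℝ) (κ : ℝ) (s : ℝ) : ℝ × ℝ := (s, p.2 + κ * (s - p.1))

lemma line_at (p : ℝ × ℝ) (κ : ℝ) : line p κ p.1 = p := by
  unfold line; simp

lemma line_hasDerivAt (p : ℝ × ℝ) (κ s : ℝ) : HasDerivAt (line p κ) (1, κ) s := by
  unfold line
  refine (hasDerivAt_id s).prodMk ?_
  simpa using (((hasDerivAt_id s).sub_const p.1).const_mul κ).const_add p.2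

lemma line_contDiff (p : ℝ × ℝ) (κ : ℝ) : ContDiff ℝ ∞ (line p κ) := by
  unfold line; fun_prop

/-- the part of a line through `p` inside `Ω` -/
noncomputable def comp (Ω : Set (ℝ × ℝ)) (p : ℝ × ℝ) (κ : ℝ) : Set ℝ :=
  connectedComponentIn (univ ∩ line p κ ⁻¹' Ω) p.1

lemma comp_facts {Ω : Set (ℝ × ℝ)} (hΩ : IsOpen Ω) {p : ℝ × ℝ} (hp : p ∈ Ω) (κ : ℝ) :
    IsOpen (comp Ω p κ) ∧ (comp Ω p κ).OrdConnected ∧ p.1 ∈ comp Ω p κ ∧
      ∀ s ∈ comp Ω p κ, line p κ s ∈ Ω := by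
  have hA : IsOpen (univ ∩ line p κ ⁻¹' Ω) :=
    isOpen_univ.inter (hΩ.preimage (line_contDiff p κ).continuous)
  have hmem : p.1 ∈ univ ∩ line p κ ⁻¹' Ω := ⟨mem_univ _, by show line p κ p.1 ∈ Ω; rwa [line_at]⟩
  obtain ⟨h1, h2, h3, h4⟩ := component_facts hA hmem
  exact ⟨h1, h2, h3, fun s hs => (h4 hs).2⟩

lemma line_inextendible {Ω : Set (ℝ × ℝ)} {Φ : ℝ × ℝ → ℝ} (hΩ : IsOpen Ω) {p : ℝ × ℝ} (hp : p ∈ Ω)
    {κ : ℝ} (hc : ∀ s ∈ comp Ω p κ, gNorm (Psi Φ (line p κ s)) (1, κ) ≤ 0) :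
    IsInextendibleCausal Ω Φ (comp Ω p κ) (line p κ) := by
  obtain ⟨h1, h2, h3, h4⟩ := comp_facts hΩ hp κ
  have hderiv : ∀ s, deriv (line p κ) s = (1, κ) := fun s => (line_hasDerivAt p κ s).deriv
  refine ⟨h1, h2, ⟨p.1, h3⟩, h4, ((line_contDiff p κ).of_le (by simp)).contDiffOn, ?_, ?_, ?_⟩
  · intro s hs
    rw [hderiv]
    exact ⟨fun h => one_ne_zero (congrArg Prod.fst h), hc s hs⟩
  · rintro ⟨q, hq, hlim⟩
    have h5 := restrict_end_top isOpen_univ ordConnected_univ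
      (line_contDiff p κ).continuous.continuousOn hΩ (mem_univ p.1) (by rwa [line_at]) hq hlim
    have h6 : Tendsto (fun s : (univ : Set ℝ) => (s : ℝ)) atTop (𝓝 q.1) :=
      (continuous_fst.tendsto q).comp h5
    have h7 : Tendsto (fun s : ℝ => (⟨s, mem_univ s⟩ : (univ : Set ℝ))) atTop atTop :=
      tendsto_atTop_atTop.2 fun b => ⟨b, fun a ha => ha⟩
    exact not_tendsto_nhds_of_tendsto_atTop tendsto_id q.1 (h6.comp h7)
  · rintro ⟨q, hq, hlim⟩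
    have h5 := restrict_end_bot isOpen_univ ordConnected_univ
      (line_contDiff p κ).continuous.continuousOn hΩ (mem_univ p.1) (by rwa [line_at]) hq hlim
    have h6 : Tendsto (fun s : (univ : Set ℝ) => (s : ℝ)) atBot (𝓝 q.1) :=
      (continuous_fst.tendsto q).comp h5
    have h7 : Tendsto (fun s : ℝ => (⟨s, mem_univ s⟩ : (univ : Set ℝ))) atBot atBot :=
      tendsto_atBot_atBot.2 fun b => ⟨b, fun a ha => ha⟩
    exact not_tendsto_nhds_of_tendsto_atBot tendsto_id q.1 (h6.comp h7)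

/-- a causal line through a point of a GHD reaches the initial line inside the GHD -/
lemma line_reaches {φ₀ φ₁ : ℝ → ℝ} {Ω : Set (ℝ × ℝ)} {Φ : ℝ × ℝ → ℝ} (h : IsGHD φ₀ φ₁ Ω Φ)
    {p : ℝ × ℝ} (hp : p ∈ Ω) {κ : ℝ}
    (hc : ∀ s ∈ comp Ω p κ, gNorm (Psi Φ (line p κ s)) (1, κ) ≤ 0) :
    uIcc 0 p.1 ⊆ comp Ω p κ := by
  obtain ⟨h1, h2, h3, h4⟩ := comp_facts h.isOpen hp κ
  obtain ⟨s, ⟨hs1, hs2⟩, _⟩ := h.cauchy _ _ (line_inextendible h.isOpen hp hc)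
  have hs0 : s = 0 := hs2
  rw [hs0] at hs1
  exact h2.uIcc_subset hs1 h3

/-! ### The transport equation for `Ψ` -/

lemma ode_zero {J : Set ℝ} (hJo : IsOpen J) (hJc : J.OrdConnected) {s₀ : ℝ} (hs₀ : s₀ ∈ J)
    {w k : ℝ → ℝ} (hk : ContinuousOn k J) (hw : ∀ s ∈ J, HasDerivAt w (k s * w s) s)
    (h0 : w s₀ = 0) : ∀ s ∈ J, w s = 0 := by
  set K : ℝ → ℝ := fun s => ∫ τ in s₀..s, k τ with hK
  have hKd : ∀ s ∈ J, HasDerivAt K (k s) s := by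
    intro s hs
    refine intervalIntegral.integral_hasDerivAt_right ?_ (hk.stronglyMeasurableAtFilter hJo s hs)
      ((hk s hs).continuousAt (hJo.mem_nhds hs))
    exact (hk.mono (hJc.uIcc_subset hs₀ hs)).intervalIntegrable
  set g : ℝ → ℝ := fun s => w s * Real.exp (-K s) with hg
  have hgd : ∀ s ∈ J, HasDerivAt g 0 s := by
    intro s hs
    have h1 := (hw s hs).mul (hKd s hs).neg.exp
    refine h1.congr_deriv ?_
    ring
  intro s hs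
  have hconv : Convex ℝ (uIcc s₀ s) := convex_uIcc s₀ s
  have h2 := hconv.norm_image_sub_le_of_norm_hasDerivWithin_le (f := g) (f' := fun _ => 0) (C := 0)
    (fun x hx => (hgd x (hJc.uIcc_subset hs₀ hs hx)).hasDerivWithinAt) (fun x _ => by simp)
    left_mem_uIcc right_mem_uIcc
  rw [zero_mul] at h2
  have h3 : g s = g s₀ := by
    have := norm_le_zero_iff.1 h2
    linarith
  have h4 : g s₀ = 0 := by simp [hg, h0]
  rw [h4] at h3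
  rcases mul_eq_zero.1 h3 with h | h
  · exact h
  · exact absurd h (Real.exp_pos _).ne'

section GHD

variable {φ₀ φ₁ : ℝ → ℝ} {Ω : Set (ℝ × ℝ)} {Φ : ℝ × ℝ → ℝ}

lemma contDiffOn_dir {f : ℝ × ℝ → ℝ} (hΩ : IsOpen Ω) (hf : ContDiffOn ℝ ∞ f Ω) (v : ℝ × ℝ) :
    ContDiffOn ℝ ∞ (fun p => fderiv ℝ f p v) Ω :=
  (hf.fderiv_of_isOpen hΩ (by simp)).clm_apply contDiffOn_const

lemma contDiffOn_Psi (hΩ : IsOpen Ω) (hf : ContDiffOn ℝ ∞ Φ Ω) : ContDiffOn ℝ ∞ (Psi Φ) Ω :=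
  (contDiffOn_dir hΩ hf (1, 0)).sub (contDiffOn_const.mul (contDiffOn_dir hΩ hf (0, 1)))

lemma hasFDerivAt_of {f : ℝ × ℝ → ℝ} (hΩ : IsOpen Ω) (hf : ContDiffOn ℝ ∞ f Ω) {p : ℝ × ℝ}
    (hp : p ∈ Ω) : HasFDerivAt f (fderiv ℝ f p) p :=
  ((hf.contDiffAt (hΩ.mem_nhds hp)).differentiableAt (by simp)).hasFDerivAt

lemma dir_swap (hΩ : IsOpen Ω) (hf : ContDiffOn ℝ ∞ Φ Ω) {p : ℝ × ℝ} (hp : p ∈ Ω) :
    dx (dt Φ) p = dt (dx Φ) p := by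
  have h1 : ContDiffAt ℝ ∞ Φ p := hf.contDiffAt (hΩ.mem_nhds hp)
  have hsym : IsSymmSndFDerivAt ℝ Φ p := h1.isSymmSndFDerivAt (by
    rw [minSmoothness_of_isRCLikeNormedField]; exact ENat.LEInfty.out)
  have hd : DifferentiableAt ℝ (fderiv ℝ Φ) p :=
    ((hf.fderiv_of_isOpen (m := ∞) hΩ (by simp)).contDiffAt (hΩ.mem_nhds hp)).differentiableAt
      (by simp)
  have h2 : ∀ v w : ℝ × ℝ, fderiv ℝ (fun q => fderiv ℝ Φ q v) p w = fderiv ℝ (fderiv ℝ Φ) p w v := by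
    intro v w
    rw [fderiv_clm_apply hd (differentiableAt_const v)]
    simp
  show fderiv ℝ (fun q => fderiv ℝ Φ q (1, 0)) p (0, 1) = fderiv ℝ (fun q => fderiv ℝ Φ q (0, 1)) p (1, 0)
  rw [h2, h2]
  exact hsym _ _

lemma transport (h : IsGHD φ₀ φ₁ Ω Φ) {p : ℝ × ℝ} (hp : p ∈ Ω) :
    dt (Psi Φ) p + (2 + Psi Φ p) * dx (Psi Φ) p = 0 := by
  have hdt := hasFDerivAt_of h.isOpen (contDiffOn_dir h.isOpen h.smooth (1, 0)) hp
  have hdx := hasFDerivAt_of h.isOpen (contDiffOn_dir h.isOpen h.smooth (0, 1)) hp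
  have h1 : HasFDerivAt (Psi Φ) (fderiv ℝ (dt Φ) p - (2 : ℝ) • fderiv ℝ (dx Φ) p) p :=
    hdt.sub (hdx.const_mul 2)
  have h2 : dt (Psi Φ) p = dt (dt Φ) p - 2 * dt (dx Φ) p := by
    unfold dt; rw [h1.fderiv]; rfl
  have h3 : dx (Psi Φ) p = dx (dt Φ) p - 2 * dx (dx Φ) p := by
    conv_lhs => unfold dx
    rw [h1.fderiv]; rfl
  rw [h2, h3, dir_swap h.isOpen h.smooth hp]
  have := h.equation p hp
  linarith

lemma hasDerivAt_along {f : ℝ × ℝ → ℝ} (hΩ : IsOpen Ω) (hf : ContDiffOn ℝ ∞ f Ω) {p : ℝ × ℝ}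
    {κ s : ℝ} (hs : line p κ s ∈ Ω) :
    HasDerivAt (fun s => f (line p κ s)) (dt f (line p κ s) + κ * dx f (line p κ s)) s := by
  have h1 := (hasFDerivAt_of hΩ hf hs).comp_hasDerivAt s (line_hasDerivAt p κ s)
  refine h1.congr_deriv ?_
  have : ((1 : ℝ), κ) = (1, 0) + κ • ((0 : ℝ), (1 : ℝ)) := by ext <;> simp
  rw [this, map_add, map_smul]
  rfl

/-- `Ψ` is constant along outgoing lines -/
lemma Psi_const (h : IsGHD φ₀ φ₁ Ω Φ) {p : ℝ × ℝ} (hp : p ∈ Ω) :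
    ∀ s ∈ comp Ω p (2 + Psi Φ p), Psi Φ (line p (2 + Psi Φ p) s) = Psi Φ p := by
  set κ : ℝ := 2 + Psi Φ p with hκ
  obtain ⟨h1, h2, h3, h4⟩ := comp_facts h.isOpen hp κ
  have hΨ := contDiffOn_Psi h.isOpen h.smooth
  have hk : ContinuousOn (fun s => -dx (Psi Φ) (line p κ s)) (comp Ω p κ) :=
    ((contDiffOn_dir h.isOpen hΨ (0, 1)).continuousOn.comp
      (line_contDiff p κ).continuous.continuousOn h4).neg
  have hw : ∀ s ∈ comp Ω p κ, HasDerivAt (fun s => Psi Φ (line p κ s) - Psi Φ p)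
      (-dx (Psi Φ) (line p κ s) * (Psi Φ (line p κ s) - Psi Φ p)) s := by
    intro s hs
    refine ((hasDerivAt_along h.isOpen hΨ (h4 s hs)).sub_const (Psi Φ p)).congr_deriv ?_
    have := transport h (h4 s hs)
    rw [hκ]
    rw [hκ] at this
    linear_combination this
  have hz := ode_zero h1 h2 h3 hk hw (by simp [line_at])
  intro s hs
  have := hz s hs
  linarith

/-- the initial value of `Ψ` -/
noncomputable def psi₀ (φ₀ φ₁ : ℝ → ℝ) (y : ℝ) : ℝ := φ₁ y - 2 * deriv φ₀ y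

lemma Psi_initial (h : IsGHD φ₀ φ₁ Ω Φ) (y : ℝ) : Psi Φ (0, y) = psi₀ φ₀ φ₁ y := by
  unfold Psi psi₀
  rw [h.data₁]
  have h1 : HasDerivAt (fun y : ℝ => Φ (0, y)) (dx Φ (0, y)) y := by
    have h2 : HasDerivAt (fun y : ℝ => ((0 : ℝ), y)) (0, 1) y :=
      (hasDerivAt_const y (0 : ℝ)).prodMk (hasDerivAt_id y)
    exact (hasFDerivAt_of h.isOpen h.smooth (h.initial_mem y)).comp_hasDerivAt y h2
  have h3 : (fun y : ℝ => Φ (0, y)) = φ₀ := funext h.data₀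
  rw [h3] at h1
  rw [h1.deriv]

lemma psi₀_contDiff (h : IsGHD φ₀ φ₁ Ω Φ) : ContDiff ℝ ∞ (psi₀ φ₀ φ₁) := by
  have h1 : (fun y : ℝ => Psi Φ (0, y)) = psi₀ φ₀ φ₁ := funext (Psi_initial h)
  rw [← h1, ← contDiffOn_univ]
  exact (contDiffOn_Psi h.isOpen h.smooth).comp (by fun_prop) fun y _ => h.initial_mem y

/-- the foot of the outgoing line through `q` -/
noncomputable def foot (Φ : ℝ × ℝ → ℝ) (q : ℝ × ℝ) : ℝ := q.2 - q.1 * (2 + Psi Φ q)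

lemma Psi_eq_foot (h : IsGHD φ₀ φ₁ Ω Φ) {q : ℝ × ℝ} (hq : q ∈ Ω) :
    Psi Φ q = psi₀ φ₀ φ₁ (foot Φ q) := by
  have hc := Psi_const h hq
  have hreach := line_reaches h hq (κ := 2 + Psi Φ q) (by
    intro s hs
    have hne := h.nondegenerate _ ((comp_facts h.isOpen hq _).2.2.2 s hs)
    rw [gNorm_eq hne, hc s hs]
    simp)
  have h0 := hc 0 (hreach left_mem_uIcc)
  have h1 : line q (2 + Psi Φ q) 0 = (0, foot Φ q) := by
    unfold line foot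
    ext
    · rfl
    · simp only; ring
  rw [h1, Psi_initial h] at h0
  exact h0.symm

lemma foot_contDiffOn (h : IsGHD φ₀ φ₁ Ω Φ) : ContDiffOn ℝ ∞ (foot Φ) Ω := by
  have := contDiffOn_Psi h.isOpen h.smooth
  unfold foot
  fun_prop

/-- the map from the foot to the line at constant time is nondegenerate inside a GHD -/
lemma foot_nondegenerate (h : IsGHD φ₀ φ₁ Ω Φ) {q : ℝ × ℝ} (hq : q ∈ Ω) :
    1 + q.1 * deriv (psi₀ φ₀ φ₁) (foot Φ q) ≠ 0 := by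
  set G : ℝ → ℝ := fun x => foot Φ (q.1, x) with hG
  have hGd : HasDerivAt G (dx (foot Φ) q) q.2 := by
    have h2 : HasDerivAt (fun x : ℝ => (q.1, x)) (0, 1) q.2 :=
      (hasDerivAt_const q.2 q.1).prodMk (hasDerivAt_id q.2)
    exact HasFDerivAt.comp_hasDerivAt (f := fun x : ℝ => (q.1, x)) q.2
      (hasFDerivAt_of h.isOpen (foot_contDiffOn h) hq) h2
  have hψ : HasDerivAt (psi₀ φ₀ φ₁) (deriv (psi₀ φ₀ φ₁) (foot Φ q)) (foot Φ q) :=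
    ((psi₀_contDiff h).differentiable (by simp)).differentiableAt.hasDerivAt
  have h1 : HasDerivAt (fun x => G x + q.1 * (2 + psi₀ φ₀ φ₁ (G x)))
      (dx (foot Φ) q + q.1 * (deriv (psi₀ φ₀ φ₁) (foot Φ q) * dx (foot Φ) q)) q.2 :=
    hGd.add (((HasDerivAt.comp q.2 (h₂ := psi₀ φ₀ φ₁) hψ hGd).const_add 2).const_mul q.1)
  have h2 : (fun x => G x + q.1 * (2 + psi₀ φ₀ φ₁ (G x))) =ᶠ[𝓝 q.2] fun x => x := by
    have hc : Continuous fun x : ℝ => (q.1, x) := by fun_prop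
    have : ∀ᶠ x in 𝓝 q.2, (q.1, x) ∈ Ω :=
      hc.continuousAt.eventually_mem (h.isOpen.mem_nhds hq)
    filter_upwards [this] with x hx
    simp only [hG]
    rw [← Psi_eq_foot h hx]
    unfold foot
    ring
  have h3 := (h1.congr_of_eventuallyEq h2.symm).unique (hasDerivAt_id q.2)
  intro h0
  have h4 : dx (foot Φ) q * (1 + q.1 * deriv (psi₀ φ₀ φ₁) (foot Φ q)) = 1 := by linarith
  rw [h0, mul_zero] at h4
  exact zero_ne_one h4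

end GHD

/-! ### Two developments of the same data agree -/

section Agreement

variable {φ₀ φ₁ : ℝ → ℝ} {Ω₁ Ω₂ : Set (ℝ × ℝ)} {Φ₁ Φ₂ : ℝ × ℝ → ℝ}

lemma incoming_reaches {Ω : Set (ℝ × ℝ)} {Φ : ℝ × ℝ → ℝ} (h : IsGHD φ₀ φ₁ Ω Φ) {p : ℝ × ℝ}
    (hp : p ∈ Ω) : ∀ s ∈ uIcc 0 p.1, line p (-2) s ∈ Ω := by
  have hreach := line_reaches h hp (κ := -2) (by
    intro s hs
    have hne := h.nondegenerate _ ((comp_facts h.isOpen hp _).2.2.2 s hs)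
    rw [gNorm_eq hne]
    norm_num)
  exact fun s hs => (comp_facts h.isOpen hp (-2)).2.2.2 s (hreach hs)

lemma foot_line {Ω : Set (ℝ × ℝ)} {Φ : ℝ × ℝ → ℝ} (h : IsGHD φ₀ φ₁ Ω Φ) (p : ℝ × ℝ) {s : ℝ}
    (hs : line p (-2) s ∈ Ω) :
    foot Φ (line p (-2) s) + s * (4 + psi₀ φ₀ φ₁ (foot Φ (line p (-2) s))) = p.2 + 2 * p.1 := by
  rw [← Psi_eq_foot h hs]
  unfold foot
  show p.2 + -2 * (s - p.1) - s * (2 + Psi Φ (line p (-2) s)) +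
    s * (4 + Psi Φ (line p (-2) s)) = p.2 + 2 * p.1
  ring

lemma foot_agree (h₁ : IsGHD φ₀ φ₁ Ω₁ Φ₁) (h₂ : IsGHD φ₀ φ₁ Ω₂ Φ₂) {p : ℝ × ℝ}
    (hp₁ : p ∈ Ω₁) (hp₂ : p ∈ Ω₂) : ∀ s ∈ uIcc 0 p.1,
      foot Φ₁ (line p (-2) s) = foot Φ₂ (line p (-2) s) := by
  set S : Set ℝ := uIcc 0 p.1 with hS
  have hL₁ := incoming_reaches h₁ hp₁
  have hL₂ := incoming_reaches h₂ hp₂
  set y₁ : ℝ → ℝ := fun s => foot Φ₁ (line p (-2) s) with hy₁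
  set y₂ : ℝ → ℝ := fun s => foot Φ₂ (line p (-2) s) with hy₂
  have hc₁ : ContinuousOn y₁ S :=
    (foot_contDiffOn h₁).continuousOn.comp (line_contDiff p (-2)).continuous.continuousOn hL₁
  have hc₂ : ContinuousOn y₂ S :=
    (foot_contDiffOn h₂).continuousOn.comp (line_contDiff p (-2)).continuous.continuousOn hL₂
  have hψ := psi₀_contDiff h₁
  have hψd : ∀ y, HasDerivAt (psi₀ φ₀ φ₁) (deriv (psi₀ φ₀ φ₁) y) y := fun y =>
    (hψ.differentiable (by simp)).differentiableAt.hasDerivAt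
  have hψc : Continuous (deriv (psi₀ φ₀ φ₁)) := hψ.continuous_deriv (by simp)
  have : PreconnectedSpace S := isPreconnected_iff_preconnectedSpace.1 isPreconnected_uIcc
  set E : Set S := {s | y₁ s = y₂ s} with hE
  have hEclosed : IsClosed E :=
    isClosed_eq (continuousOn_iff_continuous_domRestrict.1 hc₁) (continuousOn_iff_continuous_domRestrict.1 hc₂)
  have hEopen : IsOpen E := by
    rw [isOpen_iff_mem_nhds]
    intro s₀ hs₀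
    have hs₀' : y₁ s₀ = y₂ s₀ := hs₀
    set m : ℝ × ℝ → ℝ := fun q => 1 + q.1 * deriv (psi₀ φ₀ φ₁) q.2 with hm
    have hmc : Continuous m := by fun_prop
    have hm0 : m ((s₀ : ℝ), y₁ s₀) ≠ 0 := foot_nondegenerate h₁ (hL₁ s₀ s₀.2)
    obtain ⟨ε, hε, hball⟩ := Metric.eventually_nhds_iff.1 (hmc.continuousAt.eventually_ne hm0)
    have e₁ : ∀ᶠ s : S in 𝓝 s₀, dist (y₁ s) (y₁ s₀) < ε :=
      (continuousOn_iff_continuous_domRestrict.1 hc₁).continuousAt.eventually (Metric.ball_mem_nhds _ hε)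
    have e₂ : ∀ᶠ s : S in 𝓝 s₀, dist (y₂ s) (y₂ s₀) < ε :=
      (continuousOn_iff_continuous_domRestrict.1 hc₂).continuousAt.eventually (Metric.ball_mem_nhds _ hε)
    have e₃ : ∀ᶠ s : S in 𝓝 s₀, dist (s : ℝ) s₀ < ε :=
      continuous_subtype_val.continuousAt.eventually (Metric.ball_mem_nhds _ hε)
    filter_upwards [e₁, e₂, e₃] with s hs₁ hs₂ hs₃
    show y₁ s = y₂ s
    by_contra hne
    rw [← hs₀'] at hs₂
    have F₁ := foot_line h₁ p (hL₁ s s.2)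
    have F₂ := foot_line h₂ p (hL₂ s s.2)
    have hdiff : (y₁ s - y₂ s) + s * (psi₀ φ₀ φ₁ (y₁ s) - psi₀ φ₀ φ₁ (y₂ s)) = 0 := by
      simp only [hy₁, hy₂]
      linear_combination F₁ - F₂
    have hmvt : ∃ ξ ∈ uIcc (y₁ s) (y₂ s), psi₀ φ₀ φ₁ (y₁ s) - psi₀ φ₀ φ₁ (y₂ s) =
        deriv (psi₀ φ₀ φ₁) ξ * (y₁ s - y₂ s) := by
      rcases lt_or_gt_of_ne hne with hlt | hlt
      · obtain ⟨ξ, hξ, hξ2⟩ := exists_hasDerivAt_eq_slope (psi₀ φ₀ φ₁) _ hlt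
          hψ.continuous.continuousOn (fun x _ => hψd x)
        refine ⟨ξ, by rw [uIcc_of_le hlt.le]; exact ⟨hξ.1.le, hξ.2.le⟩, ?_⟩
        rw [hξ2]
        have : y₂ s - y₁ s ≠ 0 := (sub_pos.2 hlt).ne'
        field_simp
        ring
      · obtain ⟨ξ, hξ, hξ2⟩ := exists_hasDerivAt_eq_slope (psi₀ φ₀ φ₁) _ hlt
          hψ.continuous.continuousOn (fun x _ => hψd x)
        refine ⟨ξ, by rw [uIcc_of_ge hlt.le]; exact ⟨hξ.1.le, hξ.2.le⟩, ?_⟩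
        rw [hξ2]
        have : y₁ s - y₂ s ≠ 0 := (sub_pos.2 hlt).ne'
        field_simp
    obtain ⟨ξ, hξ, hξ2⟩ := hmvt
    rw [hξ2] at hdiff
    have hfac : (y₁ s - y₂ s) * m ((s : ℝ), ξ) = 0 := by
      simp only [hm]
      linear_combination hdiff
    have hmne : m ((s : ℝ), ξ) ≠ 0 := by
      refine hball ?_
      rw [Prod.dist_eq]
      refine max_lt hs₃ ?_
      rw [Real.dist_eq] at hs₁ hs₂ ⊢
      rw [abs_lt] at hs₁ hs₂ ⊢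
      rcases le_total (y₁ s) (y₂ s) with hle | hle
      · rw [uIcc_of_le hle] at hξ
        exact ⟨by linarith [hξ.1], by linarith [hξ.2]⟩
      · rw [uIcc_of_ge hle] at hξ
        exact ⟨by linarith [hξ.1], by linarith [hξ.2]⟩
    exact (mul_ne_zero (sub_ne_zero.2 hne) hmne) hfac
  have hEne : E.Nonempty := by
    refine ⟨⟨0, left_mem_uIcc⟩, ?_⟩
    have F₁ := foot_line h₁ p (hL₁ 0 left_mem_uIcc)
    have F₂ := foot_line h₂ p (hL₂ 0 left_mem_uIcc)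
    show foot Φ₁ (line p (-2) 0) = foot Φ₂ (line p (-2) 0)
    rw [zero_mul, add_zero] at F₁ F₂
    rw [F₁, F₂]
  have hEuniv : E = univ := (IsClopen.eq_univ ⟨hEclosed, hEopen⟩ hEne)
  intro s hs
  have : (⟨s, hs⟩ : S) ∈ E := by rw [hEuniv]; exact mem_univ _
  exact this

lemma agree (h₁ : IsGHD φ₀ φ₁ Ω₁ Φ₁) (h₂ : IsGHD φ₀ φ₁ Ω₂ Φ₂) {p : ℝ × ℝ}
    (hp₁ : p ∈ Ω₁) (hp₂ : p ∈ Ω₂) : Φ₁ p = Φ₂ p := by
  have hL₁ := incoming_reaches h₁ hp₁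
  have hL₂ := incoming_reaches h₂ hp₂
  have hfoot := foot_agree h₁ h₂ hp₁ hp₂
  have hΨ : ∀ s ∈ uIcc 0 p.1, Psi Φ₁ (line p (-2) s) = Psi Φ₂ (line p (-2) s) := by
    intro s hs
    rw [Psi_eq_foot h₁ (hL₁ s hs), Psi_eq_foot h₂ (hL₂ s hs), hfoot s hs]
  have hder : ∀ s ∈ uIcc 0 p.1,
      HasDerivWithinAt (fun s => Φ₁ (line p (-2) s) - Φ₂ (line p (-2) s)) 0 (uIcc 0 p.1) s := by
    intro s hs
    have d₁ := hasDerivAt_along h₁.isOpen h₁.smooth (hL₁ s hs)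
    have d₂ := hasDerivAt_along h₂.isOpen h₂.smooth (hL₂ s hs)
    refine ((d₁.sub d₂).congr_deriv ?_).hasDerivWithinAt
    have := hΨ s hs
    unfold Psi at this
    linarith
  have h3 := (convex_uIcc 0 p.1).norm_image_sub_le_of_norm_hasDerivWithin_le (C := 0) hder
    (fun x _ => by simp) left_mem_uIcc right_mem_uIcc
  rw [zero_mul] at h3
  have h4 := norm_le_zero_iff.1 h3
  have h5 : line p (-2) 0 = (0, p.2 + -2 * (0 - p.1)) := rfl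
  rw [line_at, h5, h₁.data₀, h₂.data₀] at h4
  linarith

end Agreement

/-! ### The union of two developments -/

section Union

variable {φ₀ φ₁ : ℝ → ℝ} {Ω Ω₁ Ω₂ : Set (ℝ × ℝ)} {Φ Φ₁ Φ₂ : ℝ × ℝ → ℝ}

/-- the restriction of an inextendible causal curve to a development meets the initial line -/
lemma meets {I : Set ℝ} {γ : ℝ → ℝ × ℝ} (hγ : IsInextendibleCausal Ω Φ I γ)
    (h₁ : IsGHD φ₀ φ₁ Ω₁ Φ₁) (hsub : Ω₁ ⊆ Ω) (hΨ : ∀ q ∈ Ω₁, Psi Φ q = Psi Φ₁ q) {s₀ : ℝ}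
    (hs₀ : s₀ ∈ I) (hγs₀ : γ s₀ ∈ Ω₁) : ∃ s ∈ I, (γ s).1 = 0 := by
  have hc : ContinuousOn γ I := hγ.smooth.continuousOn
  have hA : IsOpen (I ∩ γ ⁻¹' Ω₁) := hc.isOpen_inter_preimage hγ.isOpen h₁.isOpen
  obtain ⟨hJo, hJc, hsJ, hJA⟩ := component_facts hA ⟨hs₀, hγs₀⟩
  have hcurve : IsInextendibleCausal Ω₁ Φ₁ (connectedComponentIn (I ∩ γ ⁻¹' Ω₁) s₀) γ := by
    refine ⟨hJo, hJc, ⟨s₀, hsJ⟩, fun s hs => (hJA hs).2,
      hγ.smooth.mono fun s hs => (hJA hs).1, fun s hs => ?_, ?_, ?_⟩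
    · have := hγ.causal s (hJA hs).1
      rwa [hΨ _ (hJA hs).2] at this
    · rintro ⟨q, hq, hlim⟩
      exact hγ.no_future_end ⟨q, hsub hq,
        restrict_end_top hγ.isOpen hγ.ordConnected hc h₁.isOpen hs₀ hγs₀ hq hlim⟩
    · rintro ⟨q, hq, hlim⟩
      exact hγ.no_past_end ⟨q, hsub hq,
        restrict_end_bot hγ.isOpen hγ.ordConnected hc h₁.isOpen hs₀ hγs₀ hq hlim⟩
  obtain ⟨s, ⟨hs1, hs2⟩, _⟩ := h₁.cauchy _ _ hcurve
  exact ⟨s, (hJA hs1).1, hs2⟩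

lemma meets_once {I : Set ℝ} {γ : ℝ → ℝ × ℝ} (hγ : IsInextendibleCausal Ω Φ I γ)
    (hne : ∀ q ∈ Ω, Psi Φ q ≠ -4) {s s' : ℝ} (hs : s ∈ I) (hs' : s' ∈ I)
    (h0 : (γ s).1 = 0) (h0' : (γ s').1 = 0) : s = s' := by
  by_contra hcon
  wlog hlt : s < s' generalizing s s'
  · exact this hs' hs h0' h0 (Ne.symm hcon) (lt_of_le_of_ne (not_lt.1 hlt) (Ne.symm hcon))
  have hIcc : Icc s s' ⊆ I := hγ.ordConnected.out hs hs'
  have hd : ∀ τ ∈ I, HasDerivAt γ (deriv γ τ) τ := fun τ hτ =>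
    ((hγ.smooth.contDiffAt (hγ.isOpen.mem_nhds hτ)).differentiableAt (by simp)).hasDerivAt
  have hd1 : ∀ τ ∈ I, HasDerivAt (fun τ => (γ τ).1) (deriv γ τ).1 τ := fun τ hτ =>
    (ContinuousLinearMap.fst ℝ ℝ ℝ).hasFDerivAt.comp_hasDerivAt τ (hd τ hτ)
  obtain ⟨c, hc, hc0⟩ := exists_hasDerivAt_eq_zero (f := fun τ => (γ τ).1)
    (f' := fun τ => (deriv γ τ).1) hlt
    (fun τ hτ => (hd1 τ (hIcc hτ)).continuousAt.continuousWithinAt)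
    (by simp only [h0, h0']) (fun τ hτ => hd1 τ (hIcc (Ioo_subset_Icc_self hτ)))
  have hcI : c ∈ I := hIcc (Ioo_subset_Icc_self hc)
  obtain ⟨hv0, hv1⟩ := hγ.causal c hcI
  have hψ := hne _ (hγ.mem c hcI)
  rw [gNorm_eq hψ, hc0] at hv1
  have h4 : Psi Φ (γ c) + 4 ≠ 0 := fun h => hψ (by linarith)
  have hpos : 0 < 4 / (Psi Φ (γ c) + 4) ^ 2 := by positivity
  have h5 : ((deriv γ c).2 + 2 * 0) * ((deriv γ c).2 - (2 + Psi Φ (γ c)) * 0) ≤ 0 := by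
    by_contra h6
    push Not at h6
    have := mul_pos hpos h6
    linarith
  have h6 : (deriv γ c).2 = 0 := by
    have : (deriv γ c).2 ^ 2 ≤ 0 := by nlinarith
    exact pow_eq_zero_iff two_ne_zero |>.1 (le_antisymm this (sq_nonneg _))
  exact hv0 (Prod.ext hc0 h6)

lemma dir_congr {f g : ℝ × ℝ → ℝ} {p : ℝ × ℝ} (h : f =ᶠ[𝓝 p] g) (v : ℝ × ℝ) :
    (fun q => fderiv ℝ f q v) =ᶠ[𝓝 p] fun q => fderiv ℝ g q v := by
  filter_upwards [h.fderiv (𝕜 := ℝ)] with q hq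
  rw [hq]

lemma union_isGHD (h₁ : IsGHD φ₀ φ₁ Ω₁ Φ₁) (h₂ : IsGHD φ₀ φ₁ Ω₂ Φ₂) :
    ∃ Φ : ℝ × ℝ → ℝ, IsGHD φ₀ φ₁ (Ω₁ ∪ Ω₂) Φ ∧ EqOn Φ Φ₁ Ω₁ ∧ EqOn Φ Φ₂ Ω₂ := by
  classical
  set Φ : ℝ × ℝ → ℝ := fun p => if p ∈ Ω₁ then Φ₁ p else Φ₂ p with hΦ
  have e₁ : EqOn Φ Φ₁ Ω₁ := fun p hp => if_pos hp
  have e₂ : EqOn Φ Φ₂ Ω₂ := by
    intro p hp
    by_cases h : p ∈ Ω₁
    · rw [e₁ h]; exact agree h₁ h₂ h hp
    · exact if_neg h
  have ev₁ : ∀ p ∈ Ω₁, Φ =ᶠ[𝓝 p] Φ₁ := fun p hp => e₁.eventuallyEq_of_mem (h₁.isOpen.mem_nhds hp)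
  have ev₂ : ∀ p ∈ Ω₂, Φ =ᶠ[𝓝 p] Φ₂ := fun p hp => e₂.eventuallyEq_of_mem (h₂.isOpen.mem_nhds hp)
  have key : ∀ {Ω' : Set (ℝ × ℝ)} {Φ' : ℝ × ℝ → ℝ}, IsGHD φ₀ φ₁ Ω' Φ' →
      (∀ p ∈ Ω', Φ =ᶠ[𝓝 p] Φ') → (∀ p ∈ Ω', Psi Φ p = Psi Φ' p) ∧
      ∀ p ∈ Ω', -dt (dt Φ) p - Psi Φ p * dt (dx Φ) p + 2 * (2 + Psi Φ p) * dx (dx Φ) p = 0 := by
    intro Ω' Φ' h' ev
    have k1 : ∀ p ∈ Ω', Psi Φ p = Psi Φ' p := by
      intro p hp
      have := (ev p hp).fderiv_eq (𝕜 := ℝ)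
      unfold Psi dt dx
      rw [this]
    refine ⟨k1, fun p hp => ?_⟩
    have a1 : dt (dt Φ) p = dt (dt Φ') p := by
      have := (dir_congr (ev p hp) (1, 0)).fderiv_eq (𝕜 := ℝ)
      exact congrArg (fun L => L (1, 0)) this
    have a2 : dt (dx Φ) p = dt (dx Φ') p := by
      have := (dir_congr (ev p hp) (0, 1)).fderiv_eq (𝕜 := ℝ)
      exact congrArg (fun L => L (1, 0)) this
    have a3 : dx (dx Φ) p = dx (dx Φ') p := by
      have := (dir_congr (ev p hp) (0, 1)).fderiv_eq (𝕜 := ℝ)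
      exact congrArg (fun L => L (0, 1)) this
    rw [a1, a2, a3, k1 p hp]
    exact h'.equation p hp
  obtain ⟨p₁, q₁⟩ := key h₁ ev₁
  obtain ⟨p₂, q₂⟩ := key h₂ ev₂
  have hne : ∀ q ∈ Ω₁ ∪ Ω₂, Psi Φ q ≠ -4 := by
    rintro q (hq | hq)
    · rw [p₁ q hq]; exact h₁.nondegenerate q hq
    · rw [p₂ q hq]; exact h₂.nondegenerate q hq
  refine ⟨Φ, ⟨h₁.isOpen.union h₂.isOpen, fun x => Or.inl (h₁.initial_mem x), ?_, ?_, ?_, ?_, hne, ?_⟩,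
    e₁, e₂⟩
  · rintro p (hp | hp)
    · exact ((h₁.smooth.contDiffAt (h₁.isOpen.mem_nhds hp)).congr_of_eventuallyEq (ev₁ p hp)).contDiffWithinAt
    · exact ((h₂.smooth.contDiffAt (h₂.isOpen.mem_nhds hp)).congr_of_eventuallyEq (ev₂ p hp)).contDiffWithinAt
  · rintro p (hp | hp)
    · exact q₁ p hp
    · exact q₂ p hp
  · intro x
    rw [e₁ (h₁.initial_mem x)]
    exact h₁.data₀ x
  · intro x
    have := (ev₁ _ (h₁.initial_mem x)).fderiv_eq (𝕜 := ℝ)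
    unfold dt
    rw [this]
    exact h₁.data₁ x
  · intro I γ hγ
    obtain ⟨s₀, hs₀⟩ := hγ.nonempty
    have hex : ∃ s ∈ I, (γ s).1 = 0 := by
      rcases hγ.mem s₀ hs₀ with hmem | hmem
      · exact meets hγ h₁ subset_union_left p₁ hs₀ hmem
      · exact meets hγ h₂ subset_union_right p₂ hs₀ hmem
    obtain ⟨s, hs, h0⟩ := hex
    exact ⟨s, ⟨hs, h0⟩, fun s' hs' => meets_once hγ hne hs'.1 hs hs'.2 h0⟩

end Union

/-- **Theorem.** No initial data for the model equation admit two distinct maximal globally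
hyperbolic developments: two MGHDs of the same data have the same domain and the same solution. -/
theorem result (φ₀ φ₁ : ℝ → ℝ) (Ω₁ Ω₂ : Set (ℝ × ℝ)) (Φ₁ Φ₂ : ℝ × ℝ → ℝ)
    (h₁ : IsMGHD φ₀ φ₁ Ω₁ Φ₁) (h₂ : IsMGHD φ₀ φ₁ Ω₂ Φ₂) : Ω₁ = Ω₂ ∧ EqOn Φ₁ Φ₂ Ω₁ := by
  obtain ⟨Φ, hΦ, e₁, e₂⟩ := union_isGHD h₁.isGHD h₂.isGHD
  have k₁ := h₁.maximal _ Φ hΦ subset_union_left e₁
  have k₂ := h₂.maximal _ Φ hΦ subset_union_right e₂
  have hΩ : Ω₁ = Ω₂ := k₁.symm.trans k₂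
  refine ⟨hΩ, fun p hp => ?_⟩
  rw [← e₁ hp]
  exact e₂ (hΩ ▸ hp)

end Pool.Agent.Results.MP_0eca13_an.UniqueMGHD
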